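import Pool.Agent.Helper76.GT.St

/-!
# Project GT (MP_b731ff_al): module TRC, the trace estimate
-/

set_option autoImplicit false

namespace Pool.Agent.Helper16.GT

open Pool.Agent.Helper76.GT Filter
open scoped Pointwise

universe u

section
variable {H : Type u} [Group H] [DecidableEq H]

theorem sum_shift_le {F : H → ℝ} (hF : ∀ x, 0 ≤ F x) (A B : Finset H) (c : H)
    (h : ∀ y ∈ A, c * y ∈ B) : ∑ y ∈ A, F (c * y) ≤ ∑ x ∈ B, F x := by
  have h1 : ∑ y ∈ A, F (c * y) = ∑ x ∈ A.image (fun y => c * y), F x := by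
    rw [Finset.sum_image]
    intro x _ y _ hxy
    exact mul_left_cancel hxy
  rw [h1]
  refine Finset.sum_le_sum_of_subset_of_nonneg ?_ fun x _ _ => hF x
  intro x hx
  obtain ⟨y, hy, rfl⟩ := Finset.mem_image.1 hx
  exact h y hy

theorem sum_shift_eq (F : H → ℝ) (A B : Finset H) (c : H) (h : ∀ y ∈ A, c * y ∈ B) :
    ∑ y ∈ A, F (c * y) = ∑ v ∈ B, if c⁻¹ * v ∈ A then F v else 0 := by
  rw [← Finset.sum_filter]
  refine Finset.sum_nbij' (fun y => c * y) (fun v => c⁻¹ * v) ?_ ?_ ?_ ?_ ?_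
  · intro y hy
    rw [Finset.mem_filter]
    exact ⟨h y hy, by rw [inv_mul_cancel_left]; exact hy⟩
  · intro v hv
    exact (Finset.mem_filter.1 hv).2
  · intro y _
    exact inv_mul_cancel_left c y
  · intro v _
    exact mul_inv_cancel_left c v
  · intro y _
    rfl

theorem sum_mult_le {F : H → ℝ} (hF : ∀ x, 0 ≤ F x) (C A B : Finset H) (κ : ℝ)
    (h : ∀ c ∈ C, ∀ y ∈ A, c * y ∈ B)
    (hκ : ∀ v : H, ((C.filter fun c => c⁻¹ * v ∈ A).card : ℝ) ≤ κ) :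
    ∑ c ∈ C, ∑ y ∈ A, F (c * y) ≤ κ * ∑ v ∈ B, F v := by
  have h1 : ∑ c ∈ C, ∑ y ∈ A, F (c * y) = ∑ c ∈ C, ∑ v ∈ B, if c⁻¹ * v ∈ A then F v else 0 :=
    Finset.sum_congr rfl fun c hc => sum_shift_eq F A B c (h c hc)
  rw [h1, Finset.sum_comm, Finset.mul_sum]
  refine Finset.sum_le_sum fun v _ => ?_
  rw [← Finset.sum_filter, Finset.sum_const, nsmul_eq_mul]
  exact mul_le_mul_of_nonneg_right (hκ v) (hF v)

theorem sum_cover_le {F : H → ℝ} (hF : ∀ x, 0 ≤ F x) (C A D : Finset H)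
    (h : ∀ x ∈ D, ∃ c ∈ C, c⁻¹ * x ∈ A) :
    ∑ x ∈ D, F x ≤ ∑ c ∈ C, ∑ y ∈ A, F (c * y) := by
  have h1 : ∑ x ∈ D, F x ≤ ∑ x ∈ D, ∑ c ∈ C, if c⁻¹ * x ∈ A then F x else 0 := by
    refine Finset.sum_le_sum fun x hx => ?_
    obtain ⟨c, hc, hcx⟩ := h x hx
    have h2 : (if c⁻¹ * x ∈ A then F x else 0) ≤ ∑ c ∈ C, if c⁻¹ * x ∈ A then F x else 0 :=
      Finset.single_le_sum (f := fun c => if c⁻¹ * x ∈ A then F x else 0) (fun c _ => by
        show 0 ≤ if c⁻¹ * x ∈ A then F x else 0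
        split_ifs
        · exact hF x
        · exact le_rfl) hc
    rw [if_pos hcx] at h2
    exact h2
  refine h1.trans ?_
  rw [Finset.sum_comm]
  refine Finset.sum_le_sum fun c _ => ?_
  rw [← Finset.sum_filter]
  have h3 := sum_shift_le (F := fun x => F (c * x)) (fun x => hF _) (D.filter fun x => c⁻¹ * x ∈ A) A c⁻¹
    (fun y hy => (Finset.mem_filter.1 hy).2)
  simp only [mul_inv_cancel_left] at h3
  exact h3

theorem var_id {A : Finset H} (hA : A.Nonempty) (G : H → ℝ) :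
    ∑ y ∈ A, G y ^ 2 = ∑ y ∈ A, (G y - (∑ z ∈ A, G z) / (A.card : ℝ)) ^ 2 +
      (A.card : ℝ) * ((∑ z ∈ A, G z) / (A.card : ℝ)) ^ 2 := by
  have hc : (A.card : ℝ) ≠ 0 := by
    have := hA.card_pos
    positivity
  set m := (∑ z ∈ A, G z) / (A.card : ℝ) with hm
  have hs : ∑ z ∈ A, G z = A.card * m := by
    rw [hm]
    field_simp
  have h1 : ∑ y ∈ A, (G y - m) ^ 2 = ∑ y ∈ A, G y ^ 2 - 2 * m * ∑ y ∈ A, G y + A.card * m ^ 2 := by
    have : ∀ y ∈ A, (G y - m) ^ 2 = G y ^ 2 - 2 * m * G y + m ^ 2 := fun y _ => by ring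
    rw [Finset.sum_congr rfl this, Finset.sum_add_distrib, Finset.sum_sub_distrib, Finset.sum_const,
      nsmul_eq_mul, Finset.mul_sum]
  rw [h1, hs]
  ring

/-- Bessel: `n ∑ m_i^2 ≤ 1` -/
theorem bessel (N : ℕ) (u : Fin N → H → ℝ) (B A : Finset H) (hA : A.Nonempty) (c : H)
    (h : ∀ y ∈ A, c * y ∈ B) (ho : ∀ i j, ∑ x ∈ B, u i x * u j x = if i = j then 1 else 0) :
    ∑ i, (A.card : ℝ) * ((∑ z ∈ A, u i (c * z)) / (A.card : ℝ)) ^ 2 ≤ 1 := by
  set m : Fin N → ℝ := fun i => (∑ z ∈ A, u i (c * z)) / (A.card : ℝ) with hm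
  set g : H → ℝ := fun x => ∑ i, m i * u i x with hg
  set T : ℝ := ∑ i, m i ^ 2 with hT
  have hn : (0 : ℝ) < A.card := by exact_mod_cast hA.card_pos
  have h1 : ∑ x ∈ B, g x ^ 2 = T := by
    have e1 : ∀ x, g x ^ 2 = ∑ i, ∑ j, m i * m j * (u i x * u j x) := by
      intro x
      rw [hg, sq, Finset.sum_mul_sum]
      refine Finset.sum_congr rfl fun i _ => Finset.sum_congr rfl fun j _ => ?_
      ring
    simp only [e1]
    rw [Finset.sum_comm]
    rw [hT]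
    refine Finset.sum_congr rfl fun i _ => ?_
    rw [Finset.sum_comm]
    have e2 : ∀ j, ∑ x ∈ B, m i * m j * (u i x * u j x) = if i = j then m i * m j else 0 := by
      intro j
      rw [← Finset.mul_sum, ho i j]
      split_ifs <;> simp
    simp only [e2]
    rw [Finset.sum_ite_eq Finset.univ i, if_pos (Finset.mem_univ i)]
    ring
  have h2 : (∑ z ∈ A, g (c * z)) / (A.card : ℝ) = T := by
    have e1 : ∑ z ∈ A, g (c * z) = ∑ i, m i * ∑ z ∈ A, u i (c * z) := by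
      simp only [hg]
      rw [Finset.sum_comm]
      refine Finset.sum_congr rfl fun i _ => ?_
      rw [Finset.mul_sum]
    rw [e1, Finset.sum_div, hT]
    refine Finset.sum_congr rfl fun i _ => ?_
    rw [mul_div_assoc, sq]
  have h3 := var_id hA (fun y => g (c * y))
  rw [h2] at h3
  have h4 : ∑ y ∈ A, g (c * y) ^ 2 ≤ T := by
    rw [← h1]
    exact sum_shift_le (F := fun x => g x ^ 2) (fun x => sq_nonneg _) A B c h
  have h5 : 0 ≤ ∑ y ∈ A, (g (c * y) - T) ^ 2 := Finset.sum_nonneg fun y _ => sq_nonneg _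
  have h6 : (A.card : ℝ) * T ^ 2 ≤ T := by linarith
  have hT0 : 0 ≤ T := Finset.sum_nonneg fun i _ => sq_nonneg _
  rw [← Finset.mul_sum]
  show (A.card : ℝ) * T ≤ 1
  rcases hT0.eq_or_lt with h7 | h7
  · rw [← h7, mul_zero]
    exact zero_le_one
  · have h8 : ((A.card : ℝ) * T) * T ≤ 1 * T := by
      rw [one_mul]
      calc ((A.card : ℝ) * T) * T = (A.card : ℝ) * T ^ 2 := by ring
        _ ≤ T := h6
    exact le_of_mul_le_mul_right h8 h7

omit [DecidableEq H] in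
theorem grad2_nonneg (S : Finset H) (f : H → ℝ) (x : H) : 0 ≤ grad2 S f x :=
  Finset.sum_nonneg fun _ _ => sq_nonneg _

end

/-- module TRC -/
theorem pTRC (H : Type u) [Group H] [DecidableEq H] (h1 : POI H) (h2 : CAC H) (h3 : COV H) : TRC H := by
  intro S hS N w hw a L κ J ha hL hκ hJ ho
  obtain ⟨C, hC1, hC2, hC3, hC4⟩ := h3 S hS a (L * a)
  have hmono : ∀ {m n : ℕ}, m ≤ n → S ^ m ⊆ S ^ n := fun h => Finset.pow_subset_pow_right hS.one h
  have hne : ∀ n : ℕ, (S ^ n).Nonempty := fun n => ⟨1, Finset.one_mem_pow hS.one⟩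
  have hpos : ∀ n : ℕ, (0 : ℝ) < ((S ^ n).card : ℝ) := fun n => by exact_mod_cast (hne n).card_pos
  have hcm : ∀ {m n : ℕ}, m ≤ n → ((S ^ m).card : ℝ) ≤ ((S ^ n).card : ℝ) := fun h => by
    exact_mod_cast Finset.card_le_card (hmono h)
  have hκ0 : 0 < κ := by
    by_contra hcon
    rw [not_lt] at hcon
    have h4 := hpos (7 * a)
    have h5 : κ * ((S ^ a).card : ℝ) ≤ 0 := mul_nonpos_of_nonpos_of_nonneg hcon (hpos a).le
    linarith
  have hLa : 6 * a ≤ L * a := Nat.mul_le_mul_right a hL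
  have hin : ∀ (k M : ℕ), L * a + k ≤ M → ∀ c ∈ C, ∀ y ∈ S ^ k, c * y ∈ S ^ M := by
    intro k M hM c hc y hy
    refine hmono hM ?_
    rw [pow_add]
    exact Finset.mul_mem_mul (hC1 hc) hy
  have hCJ : (C.card : ℝ) ≤ J := by
    have h4 : (C.card : ℝ) * ((S ^ a).card : ℝ) ≤ ((S ^ (L * a + a)).card : ℝ) := by exact_mod_cast hC3
    exact le_of_mul_le_mul_right (h4.trans hJ) (hpos a)
  have hmult : ∀ v : H, ((C.filter fun c => c⁻¹ * v ∈ S ^ (6 * a)).card : ℝ) ≤ κ := by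
    intro v
    have h4 : ((C.filter fun c => c⁻¹ * v ∈ S ^ (6 * a)).card : ℝ) * ((S ^ a).card : ℝ) ≤
        ((S ^ (7 * a)).card : ℝ) := by exact_mod_cast hC4 v
    exact le_of_mul_le_mul_right (h4.trans hκ) (hpos a)
  have ha0 : (0 : ℝ) < a := by exact_mod_cast ha
  have hL0 : (0 : ℝ) < L := by
    have : 0 < L := by omega
    exact_mod_cast this
  -- the local part for one function
  have hloc : ∀ i, ∑ c ∈ C, ∑ y ∈ S ^ (2 * a), (w i (c * y) -
      (∑ z ∈ S ^ (2 * a), w i (c * z)) / ((S ^ (2 * a)).card : ℝ)) ^ 2 ≤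
        8 * κ ^ 2 * (S.card : ℝ) / (L : ℝ) ^ 2 := by
    intro i
    have e1 : ∀ c ∈ C, ∑ y ∈ S ^ (2 * a), (w i (c * y) -
        (∑ z ∈ S ^ (2 * a), w i (c * z)) / ((S ^ (2 * a)).card : ℝ)) ^ 2 ≤
          8 * (a : ℝ) ^ 2 * κ * ∑ y ∈ S ^ (6 * a), grad2 S (w i) (c * y) := by
      intro c _
      have e2 := h1 S hS (w i) c (2 * a)
      have e3 : 3 * (2 * a) = 6 * a := by ring
      rw [e3] at e2
      refine e2.trans ?_
      have e4 : ((S ^ (2 * (2 * a))).card : ℝ) / ((S ^ (2 * a)).card : ℝ) ≤ κ := by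
        rw [div_le_iff₀ (hpos _)]
        calc ((S ^ (2 * (2 * a))).card : ℝ) ≤ ((S ^ (7 * a)).card : ℝ) := hcm (by omega)
          _ ≤ κ * ((S ^ a).card : ℝ) := hκ
          _ ≤ κ * ((S ^ (2 * a)).card : ℝ) := mul_le_mul_of_nonneg_left (hcm (by omega)) hκ0.le
      have e5 : 0 ≤ ∑ y ∈ S ^ (6 * a), grad2 S (w i) (c * y) := Finset.sum_nonneg fun y _ => grad2_nonneg _ _ _
      refine mul_le_mul_of_nonneg_right ?_ e5
      calc 2 * ((2 * a : ℕ) : ℝ) ^ 2 * (((S ^ (2 * (2 * a))).card : ℝ) / ((S ^ (2 * a)).card : ℝ))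
          ≤ 2 * ((2 * a : ℕ) : ℝ) ^ 2 * κ := mul_le_mul_of_nonneg_left e4 (by positivity)
        _ = 8 * (a : ℝ) ^ 2 * κ := by push_cast; ring
    refine (Finset.sum_le_sum e1).trans ?_
    rw [← Finset.mul_sum]
    have e6 := sum_mult_le (F := grad2 S (w i)) (grad2_nonneg S (w i)) C (S ^ (6 * a)) (S ^ (2 * (L * a))) κ
      (hin (6 * a) (2 * (L * a)) (by omega)) hmult
    have e7 := h2 S hS (w i) (hw i) (2 * (L * a)) (by
      have : 0 < L * a := Nat.mul_pos (by omega) ha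
      omega)
    have e8 : 2 * (2 * (L * a)) = 4 * (L * a) := by ring
    rw [e8] at e7
    have e9 : ∑ x ∈ S ^ (4 * (L * a)), w i x ^ 2 = 1 := by
      have := ho i i
      rw [if_pos rfl] at this
      rw [← this]
      exact Finset.sum_congr rfl fun x _ => by ring
    rw [e9, mul_one] at e7
    calc 8 * (a : ℝ) ^ 2 * κ * ∑ c ∈ C, ∑ y ∈ S ^ (6 * a), grad2 S (w i) (c * y)
        ≤ 8 * (a : ℝ) ^ 2 * κ * (κ * (4 * (S.card : ℝ) / ((2 * (L * a) : ℕ) : ℝ) ^ 2)) := by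
          refine mul_le_mul_of_nonneg_left (e6.trans ?_) (by positivity)
          exact mul_le_mul_of_nonneg_left e7 hκ0.le
      _ = 8 * κ ^ 2 * (S.card : ℝ) / (L : ℝ) ^ 2 := by
          push_cast
          field_simp
          ring
  -- one function
  have hone : ∀ i, ∑ x ∈ S ^ (L * a), w i x ^ 2 ≤ 8 * κ ^ 2 * (S.card : ℝ) / (L : ℝ) ^ 2 +
      ∑ c ∈ C, ((S ^ (2 * a)).card : ℝ) *
        ((∑ z ∈ S ^ (2 * a), w i (c * z)) / ((S ^ (2 * a)).card : ℝ)) ^ 2 := by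
    intro i
    refine (sum_cover_le (F := fun x => w i x ^ 2) (fun x => sq_nonneg _) C (S ^ (2 * a)) (S ^ (L * a)) hC2).trans ?_
    have e1 : ∀ c ∈ C, ∑ y ∈ S ^ (2 * a), w i (c * y) ^ 2 = ∑ y ∈ S ^ (2 * a), (w i (c * y) -
        (∑ z ∈ S ^ (2 * a), w i (c * z)) / ((S ^ (2 * a)).card : ℝ)) ^ 2 + ((S ^ (2 * a)).card : ℝ) *
          ((∑ z ∈ S ^ (2 * a), w i (c * z)) / ((S ^ (2 * a)).card : ℝ)) ^ 2 := fun c _ =>
      var_id (hne (2 * a)) (fun y => w i (c * y))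
    rw [Finset.sum_congr rfl e1, Finset.sum_add_distrib]
    exact add_le_add_left (hloc i) _
  refine (Finset.sum_le_sum fun i _ => hone i).trans ?_
  rw [Finset.sum_add_distrib, Finset.sum_const, Finset.card_univ, Fintype.card_fin, nsmul_eq_mul, Finset.sum_comm]
  refine add_le_add_right ?_ _
  calc ∑ c ∈ C, ∑ i, ((S ^ (2 * a)).card : ℝ) *
      ((∑ z ∈ S ^ (2 * a), w i (c * z)) / ((S ^ (2 * a)).card : ℝ)) ^ 2
      ≤ ∑ _c ∈ C, (1 : ℝ) := by
        refine Finset.sum_le_sum fun c hc => ?_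
        exact bessel N w (S ^ (4 * (L * a))) (S ^ (2 * a)) (hne _) c
          (hin (2 * a) (4 * (L * a)) (by omega) c hc) ho
    _ = (C.card : ℝ) := by rw [Finset.sum_const, nsmul_eq_mul, mul_one]
    _ ≤ J := hCJ

end Pool.Agent.Helper16.GT
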